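import Pool.Agent.X210.UCay2

set_option autoImplicit false

/-!
# MP_6d1f6b_co: domination number of unitary Cayley graphs and Jacobsthal's function
-/

namespace Pool.Agent.Results.MP_6d1f6b_co.UnboundedGap

open Pool.Agent.X210.UCay

/-- The difference `g(n) - γ(X_n)` is unbounded: for every `K` there is `n > 1` with at least `K`
distinct prime factors and `γ(X_n) ≤ g(n) - K`. -/
theorem result (K : ℕ) : ∃ n : ℕ, 1 < n ∧ K ≤ n.primeFactors.card ∧
    domNum (X n) + K ≤ jacobsthal n := by
  obtain ⟨n, hn, hk, D, hD, hD2⟩ := Pool.Agent.X210.UCay2.main K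
  have := domNum_le (X n) hD2
  exact ⟨n, hn, hk, by omega⟩

end Pool.Agent.Results.MP_6d1f6b_co.UnboundedGap
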